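import Pool.Agent.W_4d259d_h44.Base

/-!
# MP_4d259d_ag: small disc charts

Every neighbourhood `O` of a point `z0` contains the source of a disc chart `e` with `e z0 = 0`:
restrict the chart at `z0` to `O` and compose with an affine map of the plane.
-/

noncomputable section

set_option linter.unusedSectionVars false

namespace Pool.Agent.W_4d259d_h87

open Set Filter Topology Manifold Metric TopologicalSpace
open scoped ContDiff
open Pool.Agent.W_4d259d_h46.Defs Pool.Agent.W_4d259d_h46 Pool.Agent.W_4d259d_h44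

/-- The affine homeomorphism `ζ ↦ k (ζ - c)`. -/
def aff (k : ℂ) (hk : k ≠ 0) (c : ℂ) : ℂ ≃ₜ ℂ where
  toFun ζ := k * (ζ - c)
  invFun ζ := k⁻¹ * ζ + c
  left_inv ζ := by
    show k⁻¹ * (k * (ζ - c)) + c = ζ
    rw [← mul_assoc, inv_mul_cancel₀ hk, one_mul, sub_add_cancel]
  right_inv ζ := by
    show k * (k⁻¹ * ζ + c - c) = ζ
    rw [add_sub_cancel_right, ← mul_assoc, mul_inv_cancel₀ hk, one_mul]
  continuous_toFun := by fun_prop
  continuous_invFun := by fun_prop

theorem aff_mem (k : ℂ) (hk : k ≠ 0) (c : ℂ) :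
    (aff k hk c).toOpenPartialHomeomorph ∈ contDiffGroupoid ω (modelWithCornersSelf ℂ ℂ) := by
  rw [contDiffGroupoid, mem_groupoid_of_pregroupoid]
  constructor
  · have h : ContDiff ℂ ω (fun ζ : ℂ => k * (ζ - c)) := by fun_prop
    exact h.contDiffOn
  · have h : ContDiff ℂ ω (fun ζ : ℂ => k⁻¹ * ζ + c) := by fun_prop
    exact h.contDiffOn

variable {R : Type*} [TopologicalSpace R] [ChartedSpace ℂ R]
  [IsManifold (modelWithCornersSelf ℂ ℂ) ω R]

/-- Composition of a chart with a transformation of the model. -/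
theorem trans_mem {e : OpenPartialHomeomorph R ℂ} (he : e ∈ RChart R)
    {g : OpenPartialHomeomorph ℂ ℂ}
    (hg : g ∈ contDiffGroupoid ω (modelWithCornersSelf ℂ ℂ)) : e ≫ₕ g ∈ RChart R := by
  unfold RChart IsManifold.maximalAtlas at *
  rw [mem_maximalAtlas_iff] at *
  intro e' he'
  obtain ⟨h1, h2⟩ := he e' he'
  constructor
  · rw [OpenPartialHomeomorph.trans_symm_eq_symm_trans_symm, OpenPartialHomeomorph.trans_assoc]
    exact StructureGroupoid.trans _ (StructureGroupoid.symm _ hg) h1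
  · rw [← OpenPartialHomeomorph.trans_assoc]
    exact StructureGroupoid.trans _ h2 hg

/-- Small disc charts. -/
theorem exists_dchart0 {z0 : R} {O : Set R} (hO : O ∈ 𝓝 z0) :
    ∃ e ∈ DChart R, e.source ⊆ O ∧ z0 ∈ e.source ∧ e z0 = 0 := by
  obtain ⟨e0, he0, hz0⟩ : ∃ e0 ∈ RChart R, z0 ∈ e0.source :=
    ⟨chartAt ℂ z0, IsManifold.chart_mem_maximalAtlas z0, mem_chart_source ℂ z0⟩
  obtain ⟨e1, he1, hs1, hz1⟩ : ∃ e1 ∈ RChart R, e1.source ⊆ O ∧ z0 ∈ e1.source := by
    refine ⟨e0.restr (interior O), restr_mem_maximalAtlas _ he0 isOpen_interior, ?_, ?_⟩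
    · rw [OpenPartialHomeomorph.restr_source, interior_interior]
      exact inter_subset_right.trans interior_subset
    · rw [OpenPartialHomeomorph.restr_source, interior_interior]
      exact ⟨hz0, mem_interior_iff_mem_nhds.2 hO⟩
  obtain ⟨r, hr, hball⟩ := Metric.isOpen_iff.1 e1.open_target _ (e1.map_source hz1)
  have hk : (4 / r : ℂ) ≠ 0 := div_ne_zero (by norm_num) (by exact_mod_cast hr.ne')
  refine ⟨e1 ≫ₕ (aff (4 / r) hk (e1 z0)).toOpenPartialHomeomorph,
    ⟨trans_mem he1 (aff_mem _ hk _), ?_⟩, ?_, ?_, ?_⟩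
  · intro ζ hζ
    rw [mem_closedBall_zero_iff] at hζ
    rw [OpenPartialHomeomorph.trans_target]
    refine ⟨mem_univ _, ?_⟩
    show (4 / r : ℂ)⁻¹ * ζ + e1 z0 ∈ e1.target
    apply hball
    rw [mem_ball, dist_eq_norm, add_sub_cancel_right, norm_mul, norm_inv, norm_div,
      Complex.norm_real, Real.norm_eq_abs, abs_of_pos hr]
    have h4 : ‖(4 : ℂ)‖ = 4 := by norm_num
    rw [h4, inv_div, div_mul_eq_mul_div, div_lt_iff₀ (by norm_num)]
    nlinarith
  · rw [OpenPartialHomeomorph.trans_source]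
    exact inter_subset_left.trans hs1
  · rw [OpenPartialHomeomorph.trans_source]
    exact ⟨hz1, mem_univ _⟩
  · show (4 / r : ℂ) * (e1 z0 - e1 z0) = 0
    rw [sub_self, mul_zero]

section

variable [T2Space R]

theorem symm_isOpen {e : OpenPartialHomeomorph R ℂ} {c : ℂ} {r : ℝ} (h : ball c r ⊆ e.target) :
    IsOpen (e.symm '' ball c r) :=
  e.symm.isOpen_image_of_subset_source isOpen_ball h

theorem symm_isCompact {e : OpenPartialHomeomorph R ℂ} {c : ℂ} {r : ℝ}
    (h : closedBall c r ⊆ e.target) : IsCompact (e.symm '' closedBall c r) :=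
  (isCompact_closedBall c r).image_of_continuousOn (e.symm.continuousOn.mono h)

theorem symm_closure {e : OpenPartialHomeomorph R ℂ} {c : ℂ} {r : ℝ}
    (h : closedBall c r ⊆ e.target) :
    closure (e.symm '' ball c r) ⊆ e.symm '' closedBall c r :=
  closure_minimal (image_mono ball_subset_closedBall) (symm_isCompact h).isClosed

end

end Pool.Agent.W_4d259d_h87
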